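import Pool.Agent.W2helper87.SR.Det
import Pool.Agent.W2helper87.FR.Cap

/-!
# List edge colourings of locally sparse graphs of small maximum degree
-/

set_option autoImplicit false

namespace Pool.Agent.W2helper87.LD

open Finset Pool.Agent.H162R2.Sparse Pool.Agent.H162R2.AG Pool.Agent.W2helper87.SR

/-- Galvin's theorem -/
theorem galvin0 {n : ℕ} (D : ℕ) (G : SimpleGraph (Fin n)) (σ : Fin n → Bool)
    (hσ : ∀ a b, G.Adj a b → σ a ≠ σ b) (hdeg : ∀ v, dg G v ≤ D) (L : Fin n → Fin n → Finset ℕ)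
    (hsym : ∀ a b, L a b = L b a) (hL : ∀ a b, G.Adj a b → D ≤ (L a b).card) : LC G L := by
  classical
  let E : Finset (Fin n × Fin n) := (pr G).filter (fun e => σ e.1 = true)
  have hE : ∀ e, e ∈ E ↔ G.Adj e.1 e.2 ∧ σ e.1 = true := by
    intro e
    simp only [E]
    rw [mem_filter, mem_pr]
  have h1 : ∀ u, (E.filter (fun e => e.1 = u)).card ≤ D := by
    intro u
    refine le_trans ?_ (hdeg u)
    unfold dg
    refine card_le_card_of_injOn Prod.snd ?_ ?_
    · intro e he
      rw [mem_coe, mem_filter, hE] at he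
      rw [mem_coe, mem_nb, ← he.2]
      exact he.1.1
    · intro e he e' he' h
      rw [mem_coe, mem_filter] at he he'
      exact Prod.ext (he.2.trans he'.2.symm) h
  have h2 : ∀ u, (E.filter (fun e => e.2 = u)).card ≤ D := by
    intro u
    refine le_trans ?_ (hdeg u)
    unfold dg
    refine card_le_card_of_injOn Prod.fst ?_ ?_
    · intro e he
      rw [mem_coe, mem_filter, hE] at he
      rw [mem_coe, mem_nb, ← he.2]
      exact he.1.1.symm
    · intro e he e' he' h
      rw [mem_coe, mem_filter] at he he'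
      exact Prod.ext h (he.2.trans he'.2.symm)
  obtain ⟨c, hc1, hc2⟩ := K1 (Fin n) E D h1 h2
  obtain ⟨col, k1, k2⟩ := K2 (Fin n) E D 0 0 c (fun _ => 0) (fun _ => False)
    (fun e => L e.1 e.2) hc1 hc2 (by intros; exact Nat.zero_le _) (by intro u i; simp)
    (by intro u i; simp)
    (by
      intro e he _
      have := hL e.1 e.2 ((hE e).1 he).1
      simpa using this)
    (by
      intro e he h
      exact absurd h id)
  exact Pool.Agent.W2helper87.FR.lc_of_oriented G σ hσ L hsym E hE col k1 k2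

/-- the edges at a small set of vertices of a locally sparse graph are coloured first -/
theorem first {n : ℕ} (G : SimpleGraph (Fin n)) (D m : ℕ) (A : ℝ) (hdeg : ∀ v, dg G v ≤ D)
    (hA : 0 < A) (hm : 1 ≤ m) (T₀ : Finset (Fin n)) (hT₀ : T₀.card ≤ m)
    (hsp : ∀ X : Finset (Fin n), X.card ≤ 3 * m → e2 G X ≤ A * X.card)
    (ha : 34 * (2 * A) * (1 + Real.log D) ≤ D) (L : Fin n → Fin n → Finset ℕ)
    (hsym : ∀ a b, L a b = L b a) (hL : ∀ a b, G.Adj a b → D ≤ (L a b).card)
    (hrest : ∀ T : Finset (Fin n), T₀ ⊆ T → ∀ L1 : Fin n → Fin n → Finset ℕ,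
      (∀ a b, L1 a b = L1 b a) → (∀ a b, (cutX G T).Adj a b → ∀ P : ℕ → Prop,
        ∀ [DecidablePred P], (((L a b).filter P).card : ℝ) - 2 * A ≤
          (((L1 a b).filter P).card : ℝ)) → LC (cutX G T) L1) : LC G L := by
  classical
  obtain ⟨T, hsub, hcard, hout⟩ := closure G T₀ m A hA hm hT₀ hsp
  have hdens : Dens (A_meetX G T) (2 * A) := by
    refine Pool.Agent.H892.LEC.dens_meet G T (2 * A) ?_ ?_
    · intro X hX
      have h2 := hsp X (by
        have := card_le_card hX
        omega)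
      unfold e2 at h2
      have h3 : A * (X.card : ℝ) ≤ 2 * A * X.card := by nlinarith [Nat.cast_nonneg (α := ℝ) X.card]
      linarith
    · intro v hv
      have := hout v hv
      linarith
  obtain ⟨f₁, k1, k2, k3⟩ := main_edge D (2 * A) ha L hsym (pr (A_meetX G T)).card
    (A_meetX G T) rfl (fun v => (dg_mono (G := G) (H := A_meetX G T)
      (fun x y hxy => ((A_meetX_adj G T x y).1 hxy).1) v).trans (hdeg v)) hdens
    (fun u v huv => hL u v huv.1)
  refine A_comb G T L f₁ k1 k2 k3 ?_
  set U : Fin n → Finset ℕ := fun a => ((nb G a).filter (fun w => w ∈ T)).image (f₁ a) with hU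
  have hUc : ∀ a, a ∉ T → ((U a).card : ℝ) ≤ A := by
    intro a haT
    refine le_trans ?_ (hout a haT)
    exact_mod_cast card_image_le
  refine hrest T hsub (fun a b => L a b \ (U a ∪ U b)) ?_ ?_
  · intro a b
    rw [hsym a b, union_comm]
  · intro a b hab P _
    obtain ⟨hG', haT, hbT⟩ := (cutX_adj G T a b).1 hab
    have e1 : (L a b).filter P ⊆ (L a b \ (U a ∪ U b)).filter P ∪ (U a ∪ U b) := by
      intro c hc
      rw [mem_filter] at hc
      by_cases hcU : c ∈ U a ∪ U b
      · exact mem_union_right _ hcU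
      · apply mem_union_left
        rw [mem_filter]
        exact ⟨mem_sdiff.2 ⟨hc.1, hcU⟩, hc.2⟩
    have e3 := card_le_card e1
    have e4 := card_union_le ((L a b \ (U a ∪ U b)).filter P) (U a ∪ U b)
    have e5 := card_union_le (U a) (U b)
    have e6 : (((L a b).filter P).card : ℝ) ≤ ((L a b \ (U a ∪ U b)).filter P).card +
        ((U a).card + (U b).card) := by
      exact_mod_cast e3.trans (e4.trans (Nat.add_le_add_left e5 _))
    have := hUc a haT
    have := hUc b hbT
    linarith

theorem isol {n : ℕ} (G H' : SimpleGraph (Fin n)) (T : Finset (Fin n))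
    (hH' : ∀ a b, H'.Adj a b → (cutX G T).Adj a b) : ∀ v ∈ T, dg H' v = 0 := by
  intro v hv
  unfold dg
  rw [card_eq_zero, eq_empty_iff_forall_notMem]
  intro w hw
  rw [mem_nb] at hw
  exact ((cutX_adj G T v w).1 (hH' v w hw)).2.1 hv

/-- few vertices of degree more than about half of the maximum -/
theorem det3 {n : ℕ} (G : SimpleGraph (Fin n)) (D D' m : ℕ) (A : ℝ) (hdeg : ∀ v, dg G v ≤ D)
    (hA : 0 < A) (hm : 1 ≤ m) (hT : (univ.filter (fun v => D' < dg G v)).card ≤ m)
    (hsp : ∀ X : Finset (Fin n), X.card ≤ 3 * m → e2 G X ≤ A * X.card)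
    (ha : 34 * (2 * A) * (1 + Real.log D) ≤ D) (hDD : 2 * (D' : ℝ) + 2 * A ≤ D)
    (L : Fin n → Fin n → Finset ℕ)
    (hsym : ∀ a b, L a b = L b a) (hL : ∀ a b, G.Adj a b → D ≤ (L a b).card) : LC G L := by
  classical
  refine first G D m A hdeg hA hm _ hT hsp ha L hsym hL ?_
  intro T hsub L1 hsym1 hfil
  refine GR (Fin n) (cutX G T) D' ?_ L1 hsym1 ?_
  · intro v
    by_cases hv : v ∈ T
    · rw [isol G (cutX G T) T (fun _ _ h => h) v hv]
      exact Nat.zero_le _
    · refine (dg_mono (G := G) (H := cutX G T) (fun a b h => ((cutX_adj G T a b).1 h).1) v).trans ?_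
      by_contra hcon
      apply hv
      apply hsub
      rw [mem_filter]
      exact ⟨mem_univ _, not_le.1 hcon⟩
  · intro a b hab
    have h1 := hfil a b hab (fun _ => True)
    simp only [filter_true] at h1
    have h2 : (D : ℝ) ≤ (L a b).card := by
      exact_mod_cast hL a b ((cutX_adj G T a b).1 hab).1
    have h3 : (2 * D' : ℝ) ≤ (L1 a b).card := by linarith
    exact_mod_cast h3

end Pool.Agent.W2helper87.LD
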