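import Pool.Agent.W2helper87.LD.Rat
import Pool.Agent.W2helper87.LD.Gal

/-!
# Random graphs with small edge probabilities: cycles
-/

set_option autoImplicit false

namespace Pool.Agent.W2helper87.LD

open Finset Pool.Agent.H162R2.Sparse Pool.Agent.H162R2.AG Pool.Agent.W2helper87.SR
open Pool.Agent.W2helper87.FR

/-- there is a path with `r + 1` edges from `v` to `t` whose inner vertices are not in `X` -/
def Pt {n : ℕ} (G : SimpleGraph (Fin n)) (t : Fin n) : ℕ → Fin n → Finset (Fin n) → Prop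
  | 0, v, _ => G.Adj v t
  | r + 1, v, X => ∃ w, w ∉ X ∧ G.Adj v w ∧ Pt G t r w (insert w X)

theorem Pt_congr {n : ℕ} (G G' : SimpleGraph (Fin n)) (t v : Fin n) (ht : t ≠ v)
    (h : ∀ a b, a ≠ v → b ≠ v → (G.Adj a b ↔ G'.Adj a b)) :
    ∀ (r : ℕ) (w : Fin n) (X : Finset (Fin n)), v ∈ X → w ≠ v → (Pt G t r w X ↔ Pt G' t r w X) := by
  intro r
  induction r with
  | zero =>
    intro w X _ hw
    exact h w t hw ht
  | succ r ih =>
    intro w X hv hw
    simp only [Pt]
    constructor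
    · rintro ⟨u, hu, h1, h2⟩
      have huv : u ≠ v := fun h' => hu (h' ▸ hv)
      exact ⟨u, hu, (h w u hw huv).1 h1, (ih u _ (mem_insert_of_mem hv) huv).1 h2⟩
    · rintro ⟨u, hu, h1, h2⟩
      have huv : u ≠ v := fun h' => hu (h' ▸ hv)
      exact ⟨u, hu, (h w u hw huv).2 h1, (ih u _ (mem_insert_of_mem hv) huv).2 h2⟩

theorem path_Pt {n : ℕ} (G : SimpleGraph (Fin n)) {w t : Fin n} (p : G.Walk w t) :
    p.IsPath → w ≠ t → ∀ X : Finset (Fin n), (∀ x ∈ p.support, x ≠ w → x ≠ t → x ∉ X) →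
      Pt G t (p.length - 1) w X := by
  induction p with
  | nil =>
    intro _ h
    exact absurd rfl h
  | @cons a u t h p ih =>
    intro hp hwt X hX
    rw [SimpleGraph.Walk.cons_isPath_iff] at hp
    by_cases hut : u = t
    · subst hut
      have h1 : p.length = 0 :=
        SimpleGraph.Walk.length_eq_zero_iff.2 (SimpleGraph.Walk.isPath_iff_nil.1 hp.1)
      rw [SimpleGraph.Walk.length_cons, h1]
      exact h
    · have h1 : p.length ≠ 0 := fun h' => hut (SimpleGraph.Walk.eq_of_length_eq_zero h')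
      obtain ⟨k, hk⟩ : ∃ k, p.length = k + 1 := ⟨p.length - 1, by omega⟩
      rw [SimpleGraph.Walk.length_cons, Nat.add_sub_cancel, hk]
      have h2 : u ∈ p.support := SimpleGraph.Walk.start_mem_support p
      have hua : u ≠ a := fun h' => hp.2 (h' ▸ h2)
      refine ⟨u, hX u (by rw [SimpleGraph.Walk.support_cons]; exact List.mem_cons_of_mem _ h2) hua
        hut, h, ?_⟩
      have h3 := ih hp.1 hut (insert u X) (by
        intro x hx hxu hxt hxX
        rw [mem_insert] at hxX
        rcases hxX with h4 | h4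
        · exact hxu h4
        · have hxa : x ≠ a := fun h' => hp.2 (h' ▸ hx)
          exact hX x (by rw [SimpleGraph.Walk.support_cons]; exact List.mem_cons_of_mem _ hx) hxa
            hxt h4)
      rwa [hk, Nat.add_sub_cancel] at h3

/-- there is a cycle -/
def Cy {n : ℕ} (G : SimpleGraph (Fin n)) : Prop :=
  ∃ v ∈ (univ : Finset (Fin n)), ∃ r ∈ range n, ∃ w ∈ (univ : Finset (Fin n)).erase v,
    G.Adj v w ∧ Pt G v (r + 1) w {v, w}

theorem not_acyclic {n : ℕ} (G : SimpleGraph (Fin n)) (hG : ¬ G.IsAcyclic) : Cy G := by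
  unfold SimpleGraph.IsAcyclic at hG
  push Not at hG
  obtain ⟨v, c, hc⟩ := hG
  cases c with
  | nil => exact absurd hc SimpleGraph.Walk.not_isCycle_nil
  | @cons _ w _ h p =>
    rw [SimpleGraph.Walk.cons_isCycle_iff] at hc
    have hwv : w ≠ v := h.ne'
    have h0 : p.length ≠ 0 := fun h' => hwv (SimpleGraph.Walk.eq_of_length_eq_zero h')
    have h1 : p.length ≠ 1 := by
      intro h'
      cases p with
      | nil => exact h0 rfl
      | @cons _ u _ h2 p' =>
        rw [SimpleGraph.Walk.length_cons] at h'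
        have h3 : u = v := SimpleGraph.Walk.eq_of_length_eq_zero (p := p') (by omega)
        apply hc.2
        rw [SimpleGraph.Walk.edges_cons]
        subst h3
        rw [Sym2.eq_swap]
        exact List.mem_cons_self
    have hlt := hc.1.length_lt
    rw [Fintype.card_fin] at hlt
    obtain ⟨r, hr⟩ : ∃ r, p.length = r + 2 := ⟨p.length - 2, by omega⟩
    refine ⟨v, mem_univ _, r, mem_range.2 (by omega), w, mem_erase.2 ⟨hwv, mem_univ _⟩, h, ?_⟩
    have h2 := path_Pt G p hc.1 hwv {v, w} (by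
      intro x _ hxw hxv hx
      rw [mem_insert, mem_singleton] at hx
      rcases hx with h3 | h3
      · exact hxv h3
      · exact hxw h3)
    have h4 : p.length - 1 = r + 1 := by omega
    rwa [h4] at h2

theorem lc_acyclic {n : ℕ} (D : ℕ) (G : SimpleGraph (Fin n)) (hG : G.IsAcyclic)
    (hdeg : ∀ v, dg G v ≤ D) (L : Fin n → Fin n → Finset ℕ)
    (hsym : ∀ a b, L a b = L b a) (hL : ∀ a b, G.Adj a b → D ≤ (L a b).card) : LC G L := by
  obtain ⟨C⟩ := hG.colorable_two
  refine galvin0 D G (fun v => decide (C v = 0)) ?_ hdeg L hsym hL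
  intro a b hab h
  have h1 := C.valid hab
  rw [decide_eq_decide] at h
  apply h1
  by_cases ha : C a = 0
  · rw [ha, h.1 ha]
  · have hb : C b ≠ 0 := fun hb => ha (h.2 hb)
    omega

section

variable {n : ℕ} (q : Sym2 (Fin n) → ℝ)

/-- weights of walks -/
noncomputable def Sw : ℕ → Fin n → ℝ
  | 0, _ => 1
  | r + 1, v => ∑ w ∈ univ.erase v, q s(v, w) * Sw r w

theorem indep_edge (v w : Fin n) (hvw : w ≠ v) (P : SimpleGraph (Fin n) → Prop)
    (hP : ∀ G G' : SimpleGraph (Fin n), (∀ a b, s(a, b) ≠ s(v, w) → (G.Adj a b ↔ G'.Adj a b)) →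
      (P G ↔ P G')) :
    pb q (fun G => G.Adj v w ∧ P G) = q s(v, w) * pb q P := by
  classical
  let e : Pr n := ⟨s(v, w), by simpa using hvw.symm⟩
  rw [pb_ex, pb_ex]
  have h1 : (fun G : SimpleGraph (Fin n) => if G.Adj v w ∧ P G then (1 : ℝ) else 0) =
      (fun G => (if e.1 ∈ G.edgeSet then (1 : ℝ) else 0) * (if P G then (1 : ℝ) else 0)) := by
    funext G
    have h2 : e.1 ∈ G.edgeSet ↔ G.Adj v w := Iff.rfl
    by_cases ha : G.Adj v w <;> by_cases hb : P G <;> simp [h2, ha, hb]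
  rw [h1, ex_indep q {e} (fun G => if e.1 ∈ G.edgeSet then (1 : ℝ) else 0)
    (fun G => if P G then (1 : ℝ) else 0), ex_edge]
  · intro G G' h
    have := h e (mem_singleton_self e)
    simp only [this]
  · intro G G' h
    have h2 : P G ↔ P G' := by
      apply hP
      intro a b hab
      by_cases hd : a = b
      · subst hd
        simp
      · have h3 := h ⟨s(a, b), by simpa using hd⟩ (by
          rw [mem_singleton]
          intro h4
          exact hab (congrArg Subtype.val h4))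
        exact h3
    simp only [h2]

theorem Sw_nonneg (hq : ∀ e, 0 ≤ q e ∧ q e ≤ 1) : ∀ (r : ℕ) (v : Fin n), 0 ≤ Sw q r v := by
  intro r
  induction r with
  | zero => intro v; exact zero_le_one
  | succ r ih =>
    intro v
    exact sum_nonneg fun w _ => mul_nonneg (hq _).1 (ih w)

theorem pb_Pt (hq : ∀ e, 0 ≤ q e ∧ q e ≤ 1) (qm : ℝ) (hqm : ∀ e, q e ≤ qm) (t : Fin n) :
    ∀ (r : ℕ) (v : Fin n) (X : Finset (Fin n)), v ∈ X → t ∈ X → v ≠ t →
      pb q (fun G => Pt G t r v X) ≤ qm * Sw q r v := by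
  intro r
  induction r with
  | zero =>
    intro v X _ _ hvt
    have h1 := indep_edge q v t hvt.symm (fun _ => True) (fun _ _ _ => Iff.rfl)
    have h2 : pb q (fun _ => True) = 1 := by
      rw [pb_eq]
      simpa using ex_one q
    rw [h2, mul_one] at h1
    simp only [and_true] at h1
    have h3 : pb q (fun G => Pt G t 0 v X) = pb q (fun G => G.Adj v t) := rfl
    rw [h3, h1]
    have : Sw q 0 v = 1 := rfl
    rw [this, mul_one]
    exact hqm _
  | succ r ih =>
    intro v X hv ht hvt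
    have h1 : pb q (fun G => Pt G t (r + 1) v X) ≤ pb q (fun G => ∃ w ∈ univ.erase v,
        (w ∉ X ∧ G.Adj v w ∧ Pt G t r w (insert w X))) := by
      apply pb_mono q hq
      rintro G ⟨w, hw, h2, h3⟩
      exact ⟨w, mem_erase.2 ⟨h2.ne', mem_univ _⟩, hw, h2, h3⟩
    refine h1.trans ((pb_exists_le q hq _ _).trans ?_)
    have h2 : qm * Sw q (r + 1) v = ∑ w ∈ univ.erase v, q s(v, w) * (qm * Sw q r w) := by
      have : Sw q (r + 1) v = ∑ w ∈ univ.erase v, q s(v, w) * Sw q r w := rfl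
      rw [this, mul_sum]
      apply sum_congr rfl
      intro w _
      ring
    rw [h2]
    apply sum_le_sum
    intro w hw
    have hwv : w ≠ v := (mem_erase.1 hw).1
    by_cases hwX : w ∈ X
    · have h3 : pb q (fun G => w ∉ X ∧ G.Adj v w ∧ Pt G t r w (insert w X)) ≤
          pb q (fun _ => False) := pb_mono q hq fun G h => h.1 hwX
      rw [pb_false] at h3
      refine h3.trans ?_
      have := Sw_nonneg q hq r w
      have h4 : 0 ≤ qm := (hq s(v, w)).1.trans (hqm _)
      have h5 := (hq s(v, w)).1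
      positivity
    · have h3 : pb q (fun G => w ∉ X ∧ G.Adj v w ∧ Pt G t r w (insert w X)) ≤
          pb q (fun G => G.Adj v w ∧ Pt G t r w (insert w X)) := pb_mono q hq fun G h => h.2
      refine h3.trans ?_
      rw [indep_edge q v w hwv]
      · apply mul_le_mul_of_nonneg_left _ (hq _).1
        exact ih w _ (mem_insert_self _ _) (mem_insert_of_mem ht) (fun h => hwX (h ▸ ht))
      · intro G G' h
        apply Pt_congr G G' t v hvt.symm
        · intro a b ha hb
          apply h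
          intro h4
          rcases Sym2.eq_iff.1 h4 with h5 | h5
          · exact ha h5.1
          · exact hb h5.2
        · exact mem_insert_of_mem hv
        · exact hwv

theorem pb_Cy (hq : ∀ e, 0 ≤ q e ∧ q e ≤ 1) (qm : ℝ) (hqm : ∀ e, q e ≤ qm) :
    pb q Cy ≤ ∑ v : Fin n, ∑ r ∈ range n, qm * Sw q (r + 2) v := by
  unfold Cy
  refine (pb_exists_le q hq _ _).trans ?_
  apply sum_le_sum
  intro v _
  refine (pb_exists_le q hq _ _).trans ?_
  apply sum_le_sum
  intro r _
  refine (pb_exists_le q hq _ _).trans ?_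
  have h2 : qm * Sw q (r + 2) v = ∑ w ∈ univ.erase v, q s(v, w) * (qm * Sw q (r + 1) w) := by
    have : Sw q (r + 2) v = ∑ w ∈ univ.erase v, q s(v, w) * Sw q (r + 1) w := rfl
    rw [this, mul_sum]
    apply sum_congr rfl
    intro w _
    ring
  rw [h2]
  apply sum_le_sum
  intro w hw
  have hwv : w ≠ v := (mem_erase.1 hw).1
  rw [indep_edge q v w hwv]
  · apply mul_le_mul_of_nonneg_left _ (hq _).1
    apply pb_Pt q hq qm hqm
    · exact mem_insert_of_mem (mem_singleton_self _)
    · exact mem_insert_self _ _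
    · exact hwv
  · intro G G' h
    have hG : ∀ a b, a ≠ w → b ≠ w → (G.Adj a b ↔ G'.Adj a b) := by
      intro a b ha hb
      apply h
      intro h4
      rcases Sym2.eq_iff.1 h4 with h5 | h5
      · exact hb h5.2
      · exact ha h5.1
    have hG2 : ∀ u, u ∉ ({v, w} : Finset (Fin n)) → (G.Adj w u ↔ G'.Adj w u) := by
      intro u hu
      rw [mem_insert, mem_singleton, not_or] at hu
      apply h
      intro h4
      rcases Sym2.eq_iff.1 h4 with h5 | h5
      · exact hwv h5.1
      · exact hu.1 h5.2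
    simp only [Pt]
    constructor
    · rintro ⟨u, hu, h1, h3⟩
      refine ⟨u, hu, (hG2 u hu).1 h1, ?_⟩
      rw [← Pt_congr G G' v w hwv.symm hG]
      · exact h3
      · exact mem_insert_of_mem (mem_insert_of_mem (mem_singleton_self _))
      · rw [mem_insert, mem_singleton, not_or] at hu
        exact hu.2
    · rintro ⟨u, hu, h1, h3⟩
      refine ⟨u, hu, (hG2 u hu).2 h1, ?_⟩
      rw [Pt_congr G G' v w hwv.symm hG]
      · exact h3
      · exact mem_insert_of_mem (mem_insert_of_mem (mem_singleton_self _))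
      · rw [mem_insert, mem_singleton, not_or] at hu
        exact hu.2

theorem Sw_le (hq : ∀ e, 0 ≤ q e ∧ q e ≤ 1) (qm M ε₁ : ℝ) (hqm : ∀ e, q e ≤ qm)
    (hM : 1 ≤ M) (hε : 0 ≤ ε₁) (hmu : ∀ v, mu q v ≤ M) (W : Finset (Fin n))
    (hW : ∀ v ∉ W, mu q v ≤ ε₁) (hWc : (W.card : ℝ) * qm ≤ ε₁) (r : ℕ) (B : ℝ) (hB : 0 ≤ B)
    (hr : ∀ w, Sw q r w ≤ B) : ∀ v, Sw q (r + 2) v ≤ 2 * M * ε₁ * B := by
  classical
  have h1 : ∀ w, Sw q (r + 1) w ≤ mu q w * B := by
    intro w
    have : Sw q (r + 1) w = ∑ u ∈ univ.erase w, q s(w, u) * Sw q r u := rfl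
    rw [this]
    unfold mu
    rw [sum_mul]
    apply sum_le_sum
    intro u _
    exact mul_le_mul_of_nonneg_left (hr u) (hq _).1
  intro v
  have h2 : Sw q (r + 2) v = ∑ u ∈ univ.erase v, q s(v, u) * Sw q (r + 1) u := rfl
  rw [h2, ← sum_filter_add_sum_filter_not (univ.erase v) (fun u => u ∈ W)]
  have h3 : ∑ u ∈ (univ.erase v).filter (fun u => u ∈ W), q s(v, u) * Sw q (r + 1) u ≤
      ε₁ * (M * B) := by
    calc ∑ u ∈ (univ.erase v).filter (fun u => u ∈ W), q s(v, u) * Sw q (r + 1) u ≤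
        ∑ _u ∈ (univ.erase v).filter (fun u => u ∈ W), qm * (M * B) := by
          apply sum_le_sum
          intro u _
          have h4 : Sw q (r + 1) u ≤ M * B :=
            (h1 u).trans (mul_le_mul_of_nonneg_right (hmu u) hB)
          exact mul_le_mul (hqm _) h4 (Sw_nonneg q hq _ _) ((hq s(v, u)).1.trans (hqm _))
      _ = (((univ.erase v).filter (fun u => u ∈ W)).card : ℝ) * (qm * (M * B)) := by
          rw [sum_const, nsmul_eq_mul]
      _ ≤ W.card * (qm * (M * B)) := by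
          have h5 : ((univ.erase v).filter (fun u => u ∈ W)).card ≤ W.card := by
            apply card_le_card
            intro u hu
            exact (mem_filter.1 hu).2
          have h6 : (((univ.erase v).filter (fun u => u ∈ W)).card : ℝ) ≤ W.card := by
            exact_mod_cast h5
          have h7 : 0 ≤ qm := (hq s(v, v)).1.trans (hqm _)
          have h8 : 0 ≤ qm * (M * B) := by positivity
          exact mul_le_mul_of_nonneg_right h6 h8
      _ = (W.card * qm) * (M * B) := by ring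
      _ ≤ ε₁ * (M * B) := by
          apply mul_le_mul_of_nonneg_right hWc
          positivity
  have h4 : ∑ u ∈ (univ.erase v).filter (fun u => ¬ u ∈ W), q s(v, u) * Sw q (r + 1) u ≤
      M * (ε₁ * B) := by
    calc ∑ u ∈ (univ.erase v).filter (fun u => ¬ u ∈ W), q s(v, u) * Sw q (r + 1) u ≤
        ∑ u ∈ (univ.erase v).filter (fun u => ¬ u ∈ W), q s(v, u) * (ε₁ * B) := by
          apply sum_le_sum
          intro u hu
          rw [mem_filter] at hu
          have h4 : Sw q (r + 1) u ≤ ε₁ * B :=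
            (h1 u).trans (mul_le_mul_of_nonneg_right (hW u hu.2) hB)
          exact mul_le_mul_of_nonneg_left h4 (hq _).1
      _ ≤ ∑ u ∈ univ.erase v, q s(v, u) * (ε₁ * B) := by
          apply sum_le_sum_of_subset_of_nonneg (filter_subset _ _)
          intro u _ _
          exact mul_nonneg (hq _).1 (by positivity)
      _ = mu q v * (ε₁ * B) := by
          rw [← sum_mul]
          rfl
      _ ≤ M * (ε₁ * B) := mul_le_mul_of_nonneg_right (hmu v) (by positivity)
  have h5 : 2 * M * ε₁ * B = ε₁ * (M * B) + M * (ε₁ * B) := by ring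
  rw [h5]
  exact add_le_add h3 h4

theorem Sw_bound (hq : ∀ e, 0 ≤ q e ∧ q e ≤ 1) (qm M ε₁ : ℝ) (hqm : ∀ e, q e ≤ qm)
    (hM : 1 ≤ M) (hε : 0 ≤ ε₁) (hmu : ∀ v, mu q v ≤ M) (W : Finset (Fin n))
    (hW : ∀ v ∉ W, mu q v ≤ ε₁) (hWc : (W.card : ℝ) * qm ≤ ε₁) (j : ℕ) :
    (∀ v, Sw q (2 * j) v ≤ M * (2 * M * ε₁) ^ j) ∧
      (∀ v, Sw q (2 * j + 1) v ≤ M * (2 * M * ε₁) ^ j) := by
  have hM0 : 0 ≤ M := by linarith
  induction j with
  | zero =>
    constructor
    · intro v
      have : Sw q (2 * 0) v = 1 := rfl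
      rw [this, pow_zero, mul_one]
      exact hM
    · intro v
      have : Sw q (2 * 0 + 1) v = ∑ u ∈ univ.erase v, q s(v, u) * 1 := rfl
      rw [this, pow_zero, mul_one]
      simp only [mul_one]
      exact hmu v
  | succ j ih =>
    have h1 := Sw_le q hq qm M ε₁ hqm hM hε hmu W hW hWc (2 * j) _ (by positivity) ih.1
    have h2 := Sw_le q hq qm M ε₁ hqm hM hε hmu W hW hWc (2 * j + 1) _ (by positivity) ih.2
    have h3 : 2 * M * ε₁ * (M * (2 * M * ε₁) ^ j) = M * (2 * M * ε₁) ^ (j + 1) := by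
      rw [pow_succ]
      ring
    constructor
    · intro v
      have : 2 * (j + 1) = 2 * j + 2 := by ring
      rw [this, ← h3]
      exact h1 v
    · intro v
      have : 2 * (j + 1) + 1 = 2 * j + 1 + 2 := by ring
      rw [this, ← h3]
      exact h2 v

theorem geo2 (ρ : ℝ) (h0 : 0 ≤ ρ) (h1 : ρ ≤ 1 / 2) (m : ℕ) : ∑ j ∈ range m, ρ ^ j ≤ 2 := by
  have h2 : ∑ j ∈ range m, ρ ^ j ≤ ∑ j ∈ range m, (1 / 2 : ℝ) ^ j := by
    apply sum_le_sum
    intro j _
    gcongr
  have h3 : ∑ j ∈ range m, (1 / 2 : ℝ) ^ j = 2 - 2 * (1 / 2) ^ m := by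
    induction m with
    | zero => simp
    | succ m ih =>
      rw [sum_range_succ, ih, pow_succ]
      · ring
      · apply sum_le_sum
        intro j _
        gcongr
  have : (0 : ℝ) ≤ 2 * (1 / 2) ^ m := by positivity
  linarith

/-- the probability of a cycle -/
theorem pb_cycle (hq : ∀ e, 0 ≤ q e ∧ q e ≤ 1) (qm M ε₁ : ℝ) (hqm : ∀ e, q e ≤ qm)
    (hqm0 : 0 ≤ qm)
    (hM : 1 ≤ M) (hε : 0 ≤ ε₁) (hmu : ∀ v, mu q v ≤ M) (W : Finset (Fin n))
    (hW : ∀ v ∉ W, mu q v ≤ ε₁) (hWc : (W.card : ℝ) * qm ≤ ε₁) (hρ : 2 * M * ε₁ ≤ 1 / 2) :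
    pb q (fun G => ¬ G.IsAcyclic) ≤ 8 * n * qm * M ^ 2 * ε₁ := by
  have hM0 : 0 ≤ M := by linarith
  have h1 : pb q (fun G => ¬ G.IsAcyclic) ≤ pb q Cy := pb_mono q hq fun G h => not_acyclic G h
  refine (h1.trans (pb_Cy q hq qm hqm)).trans ?_
  obtain ⟨ρ, hρd⟩ : ∃ ρ : ℝ, ρ = 2 * M * ε₁ := ⟨_, rfl⟩
  have hρ0 : 0 ≤ ρ := by rw [hρd]; positivity
  have hρ1 : ρ ≤ 1 / 2 := by rw [hρd]; exact hρ
  have h2 : ∀ v : Fin n, ∀ m : ℕ, ∑ r ∈ range (2 * m), Sw q (r + 2) v ≤
      2 * (M * ρ * ∑ j ∈ range m, ρ ^ j) := by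
    intro v m
    induction m with
    | zero => simp
    | succ m ih =>
      have e1 : 2 * (m + 1) = 2 * m + 1 + 1 := by ring
      rw [e1, sum_range_succ, sum_range_succ, sum_range_succ]
      have e2 := (Sw_bound q hq qm M ε₁ hqm hM hε hmu W hW hWc (m + 1)).1 v
      have e3 := (Sw_bound q hq qm M ε₁ hqm hM hε hmu W hW hWc (m + 1)).2 v
      have e4 : 2 * m + 2 = 2 * (m + 1) := by ring
      have e5 : 2 * m + 1 + 2 = 2 * (m + 1) + 1 := by ring
      rw [e4, e5]
      rw [← hρd, pow_succ] at e2 e3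
      linarith
  have h3 : ∀ v : Fin n, ∑ r ∈ range n, qm * Sw q (r + 2) v ≤ qm * (4 * (M * ρ)) := by
    intro v
    rw [← mul_sum]
    apply mul_le_mul_of_nonneg_left _ hqm0
    calc ∑ r ∈ range n, Sw q (r + 2) v ≤ ∑ r ∈ range (2 * n), Sw q (r + 2) v := by
          apply sum_le_sum_of_subset_of_nonneg
          · intro r hr
            rw [mem_range] at hr ⊢
            omega
          · intro r _ _
            exact Sw_nonneg q hq _ _
      _ ≤ 2 * (M * ρ * ∑ j ∈ range n, ρ ^ j) := h2 v n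
      _ ≤ 2 * (M * ρ * 2) := by
          have := geo2 ρ hρ0 hρ1 n
          gcongr
      _ = 4 * (M * ρ) := by ring
  refine (sum_le_sum fun v _ => h3 v).trans (le_of_eq ?_)
  rw [sum_const, card_univ, Fintype.card_fin, nsmul_eq_mul, hρd]
  ring

end

end Pool.Agent.W2helper87.LD
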