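import Pool.Agent.W2helper87.LD.Rat

/-!
# Random graphs with small edge probabilities: lower bounds for probabilities
-/

set_option autoImplicit false

namespace Pool.Agent.W2helper87.LD

open Finset Pool.Agent.H162R2.Sparse Pool.Agent.H162R2.AG Pool.Agent.W2helper87.SR
open Pool.Agent.W2helper87.FR

section

variable {n : ℕ} (q : Sym2 (Fin n) → ℝ)

open Classical in
theorem PS0_lower (hq : ∀ e, 0 ≤ q e ∧ q e ≤ 1) (S : Finset (Pr n)) (hh : ∀ e, q e ≤ 1 / 2) :
    Real.exp (-(2 * qs q S)) / 2 ≤ PS q S 0 := by
  set μ := qs q S with hμ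
  have hμ0 : 0 ≤ μ := qs_nonneg q hq S
  set lam : ℝ := -(2 * μ) - Real.log 2 with hlam
  have hlog : 0 ≤ Real.log 2 := Real.log_nonneg (by norm_num)
  have hlam0 : lam ≤ 0 := by linarith
  have hE : Real.exp lam = Real.exp (-(2 * μ)) / 2 := by
    rw [hlam, Real.exp_sub, Real.exp_log (by norm_num)]
  -- the generating function from below
  have h1 : Real.exp (-(2 * μ)) ≤ ex q (fun G => Real.exp (lam * cS S G)) := by
    rw [mgf_cS, hμ]
    unfold qs
    rw [mul_sum, ← sum_neg_distrib, Real.exp_sum]
    apply prod_le_prod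
    · intro e _
      exact (Real.exp_pos _).le
    · intro e _
      have e1 := (hq e.1).1
      have e2 := hh e.1
      have e3 : Real.exp (-(2 * q e.1)) ≤ 1 - q e.1 := by
        rw [Real.exp_neg]
        have e4 := Real.add_one_le_exp (2 * q e.1)
        rw [inv_le_comm₀ (Real.exp_pos _) (by linarith)]
        refine le_trans ?_ e4
        rw [inv_eq_one_div, div_le_iff₀ (by linarith)]
        nlinarith
      have e5 : 0 < Real.exp lam := Real.exp_pos _
      nlinarith
  -- and from above
  have h2 : ex q (fun G => Real.exp (lam * cS S G)) ≤ PS q S 0 + Real.exp lam := by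
    unfold PS
    rw [pb_ex]
    have e1 : ex q (fun G => Real.exp (lam * cS S G)) ≤
        ex q (fun G => (if cS S G = 0 then (1 : ℝ) else 0) + Real.exp lam * 1) := by
      apply ex_mono q hq
      intro G
      by_cases h : cS S G = 0
      · rw [if_pos h, h]
        simp only [Nat.cast_zero, mul_zero, Real.exp_zero, mul_one]
        have := Real.exp_pos lam
        linarith
      · rw [if_neg h, zero_add, mul_one]
        apply Real.exp_le_exp.2
        have e2 : (1 : ℝ) ≤ cS S G := by exact_mod_cast Nat.one_le_iff_ne_zero.2 h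
        nlinarith
    rw [ex_add, ex_mul, ex_one, mul_one] at e1
    exact e1
  rw [hE] at h2
  linarith

theorem TS_lower (hq : ∀ e, 0 ≤ q e ∧ q e ≤ 1) (qm : ℝ) (hqm : ∀ e, q e ≤ qm)
    (hqm2 : qm ≤ 1 / 2) (S : Finset (Pr n)) (K : ℕ) (hK : 1 ≤ K) (b : ℝ) (hb0 : 0 < b)
    (hb1 : b ≤ 1)
    (hb : b ≤ qs q S) (hbK : 2 * qm * K ≤ b) :
    (b / (2 * K)) ^ K * Real.exp (-(16 * K)) / 2 ≤ TS q S K := by
  have hKr : (1 : ℝ) ≤ K := by exact_mod_cast hK
  set μ := qs q S with hμ
  have hμ0 : 0 < μ := lt_of_lt_of_le hb0 hb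
  have hqm0 : 0 ≤ qm := by
    by_contra hcon
    push Not at hcon
    have : μ ≤ 0 := by
      rw [hμ]
      unfold qs
      apply sum_nonpos
      intro e _
      linarith [hqm e.1]
    linarith
  rcases le_or_gt μ (8 * K) with hsm | hbig
  · have h1 : ∀ j ≤ K, (b / (2 * K)) ^ j * PS q S 0 ≤ PS q S j := by
      intro j hj
      induction j with
      | zero => simp
      | succ j ih =>
        have h2 := ih (by omega)
        have h3 := ratio_gen q hq qm hqm S j
        have hj1 : (j : ℝ) + 1 ≤ K := by exact_mod_cast hj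
        have hP := PS_nonneg q hq S j
        have hP1 := PS_nonneg q hq S (j + 1)
        have h4 : b / 2 * PS q S j ≤ K * PS q S (j + 1) := by
          calc b / 2 * PS q S j ≤ (μ - qm * j) * PS q S j := by
                apply mul_le_mul_of_nonneg_right _ hP
                have : qm * (j : ℝ) ≤ qm * K := by
                  apply mul_le_mul_of_nonneg_left _ hqm0
                  linarith
                linarith
            _ ≤ ((j : ℝ) + 1) * PS q S (j + 1) := h3
            _ ≤ K * PS q S (j + 1) := by gcongr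
        calc (b / (2 * K)) ^ (j + 1) * PS q S 0 =
            b / (2 * K) * ((b / (2 * K)) ^ j * PS q S 0) := by ring
          _ ≤ b / (2 * K) * PS q S j := by gcongr
          _ = (b / 2 * PS q S j) / K := by
              field_simp
          _ ≤ (K * PS q S (j + 1)) / K := by gcongr
          _ = PS q S (j + 1) := by field_simp
    have h2 := h1 K le_rfl
    have h3 := PS0_lower q hq S (fun e => (hqm e).trans hqm2)
    have h4 : PS q S K ≤ TS q S K := by
      have := TS_succ S q K
      have := TS_nonneg q hq S (K + 1)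
      linarith
    have h5 : Real.exp (-(16 * K)) ≤ Real.exp (-(2 * μ)) := by
      apply Real.exp_le_exp.2
      linarith
    calc (b / (2 * K)) ^ K * Real.exp (-(16 * K)) / 2 ≤
        (b / (2 * K)) ^ K * (Real.exp (-(2 * μ)) / 2) := by
          rw [mul_div_assoc]
          gcongr
      _ ≤ (b / (2 * K)) ^ K * PS q S 0 := by gcongr
      _ ≤ TS q S K := h2.trans h4
  · have h1 := cS_lower q hq S μ (μ / 2) hμ0 le_rfl (by linarith) (by linarith)
    have h2 : Real.exp (-((μ / 2) ^ 2) / (4 * μ)) ≤ Real.exp (-(1 / 2)) := by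
      apply Real.exp_le_exp.2
      have : -((μ / 2) ^ 2) / (4 * μ) = -(μ / 16) := by
        field_simp
        norm_num
      rw [this]
      linarith
    have h3 : Real.exp (-(1 / 2)) ≤ 3 / 4 := by
      have h4 := Real.add_one_le_exp (1 / 2 : ℝ)
      rw [Real.exp_neg]
      rw [inv_le_comm₀ (Real.exp_pos _) (by norm_num)]
      refine le_trans ?_ h4
      norm_num
    have h4 : 1 - 3 / 4 ≤ TS q S K := by
      have h5 : TS q S K = 1 - pb q (fun G => ¬ K ≤ cS S G) := by
        unfold TS
        rw [pb_not]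
      have h6 : pb q (fun G => ¬ K ≤ cS S G) ≤ pb q (fun G => (cS S G : ℝ) ≤ μ - μ / 2) := by
        apply pb_mono q hq
        intro G hG
        push Not at hG
        have : (cS S G : ℝ) < K := by exact_mod_cast hG
        linarith
      linarith
    have h5 : (b / (2 * K)) ^ K * Real.exp (-(16 * K)) / 2 ≤ 1 / 4 := by
      have e1 : (b / (2 * K)) ≤ 1 / 2 := by
        rw [div_le_iff₀ (by linarith)]
        linarith
      have e2 : (b / (2 * K)) ^ K ≤ 1 / 2 := by
        calc (b / (2 * K)) ^ K ≤ (1 / 2 : ℝ) ^ K := by gcongr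
          _ ≤ (1 / 2 : ℝ) ^ 1 := by
              apply pow_le_pow_of_le_one (by norm_num) (by norm_num) hK
          _ = 1 / 2 := by norm_num
      have e3 : Real.exp (-(16 * K)) ≤ 1 := by
        rw [Real.exp_le_one_iff]
        linarith
      calc (b / (2 * K)) ^ K * Real.exp (-(16 * K)) / 2 ≤ (1 / 2) * 1 / 2 := by
            gcongr
        _ = 1 / 4 := by norm_num
    linarith

end

end Pool.Agent.W2helper87.LD
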