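import Pool.Agent.W2helper87.LD.Gal

/-!
# List edge colourings of locally sparse graphs with few vertices of degree near the maximum
-/

set_option autoImplicit false

namespace Pool.Agent.W2helper87.LD

open Finset Pool.Agent.H162R2.Sparse Pool.Agent.H162R2.AG Pool.Agent.W2helper87.SR

set_option maxHeartbeats 1000000 in
theorem det2 (n : ℕ) (G : SimpleGraph (Fin n)) (D D' J m : ℕ) (A η : ℝ)
    (mj dj : ℕ → ℕ) (hD : 0 < D) (hdeg : ∀ v, dg G v ≤ D) (hA : 0 < A) (h0 : 0 ≤ η)
    (h1 : η ≤ D / 2) (hm : 1 ≤ m)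
    (hT : ((univ.filter (fun v => D' < dg G v)).card : ℝ) + n * 2 ^ (2 ^ J) *
      Real.exp (-(η ^ 2) / D) + n * D * (J + 1) * Real.exp (-(η ^ 2) / D) ≤ m)
    (hsp : ∀ X : Finset (Fin n), X.card ≤ 3 * m → e2 G X ≤ A * X.card)
    (ha : 34 * (2 * A) * (1 + Real.log D) ≤ D)
    (hdj : ∀ j < J, (D' : ℝ) / 2 ^ (j + 1) + η ≤ dj j)
    (hdJ : (D' : ℝ) / 2 ^ J + η ≤ dj J)
    (hmj : ∀ j < J, (dj j : ℝ) + 2 * A + η ≤ mj j)
    (hsum : ((∑ j ∈ range J, mj j : ℕ) : ℝ) + 2 * dj J + η + 2 * A ≤ D)
    (L : Fin n → Fin n → Finset ℕ) (hsym : ∀ a b, L a b = L b a)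
    (hL : ∀ a b, G.Adj a b → D ≤ (L a b).card) : LC G L := by
  classical
  have hDr : (0 : ℝ) < D := by exact_mod_cast hD
  -- lists of size `D`
  set L0 : Fin n → Fin n → Finset ℕ := fun a b => trim D (L a b) with hL0
  have hsym0 : ∀ a b, L0 a b = L0 b a := by
    intro a b
    simp only [hL0]
    rw [hsym]
  have hcard0 : ∀ a b, G.Adj a b → (L0 a b).card = D := fun a b hab => trim_card D _ (hL a b hab)
  refine LC_mono (fun a b _ => trim_subset D (L a b)) ?_
  change LC G L0
  -- the blocks of colours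
  let M : ℕ → ℕ := fun j => ∑ i ∈ range j, mj i
  have hMs : ∀ j, M (j + 1) = M j + mj j := fun j => Finset.sum_range_succ _ _
  have hMm : ∀ j, M j ≤ M (j + 1) := fun j => by rw [hMs]; omega
  have hMmono : Monotone M := monotone_nat_of_le_succ hMm
  have hMJ : M J ≤ D := by
    have h2 : (M J : ℝ) ≤ D := by
      have h3 : (0 : ℝ) ≤ dj J := Nat.cast_nonneg _
      simp only [M]
      linarith
    exact_mod_cast h2
  let B : Fin (J + 1) → Finset (Fin D) := fun j => univ.filter (fun x : Fin D =>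
    M j ≤ (x : ℕ) ∧ (x : ℕ) < if (j : ℕ) < J then M (j + 1) else D)
  obtain ⟨σ, T1, hT1, hσ⟩ := exists_sigma J G D hD hdeg η h0 h1
  obtain ⟨ψ, T2, hT2, hψ⟩ := exists_psi G D hD hdeg η h0 h1 L0 hcard0 (J + 1) B
  -- the exceptional vertices
  set T0 : Finset (Fin n) := univ.filter (fun v => D' < dg G v) with hT0
  have hTm : (T0 ∪ T1 ∪ T2).card ≤ m := by
    have e1 := card_union_le (T0 ∪ T1) T2
    have e2' := card_union_le T0 T1
    have e3 : ((T0 ∪ T1 ∪ T2).card : ℝ) ≤ T0.card + T1.card + T2.card := by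
      exact_mod_cast e1.trans (Nat.add_le_add_right e2' _)
    have e4 : ((T0 ∪ T1 ∪ T2).card : ℝ) ≤ m := by
      push_cast at hT2
      linarith
    exact_mod_cast e4
  refine first G D m A hdeg hA hm _ hTm hsp ha L0 hsym0 (fun a b hab => (hcard0 a b hab).ge) ?_
  intro T hsub L1 hsym1 hfil
  have hT0n : ∀ v ∉ T, dg G v ≤ D' := by
    intro v hv
    by_contra hcon
    exact hv (hsub (mem_union_left _ (mem_union_left _ (by
      rw [hT0, mem_filter]
      exact ⟨mem_univ _, not_le.1 hcon⟩))))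
  have hT1n : ∀ v ∉ T, v ∉ T1 := fun v hv h => hv (hsub (mem_union_left _ (mem_union_right _ h)))
  have hT2n : ∀ v ∉ T, v ∉ T2 := fun v hv h => hv (hsub (mem_union_right _ h))
  set H := cutX G T with hH
  have hisol : ∀ (H' : SimpleGraph (Fin n)), (∀ a b, H'.Adj a b → H.Adj a b) → ∀ v ∈ T,
      dg H' v = 0 := fun H' h v hv => isol G H' T h v hv
  -- all levels
  have hlev := levels H σ (fun c => (ψ c : ℕ)) M L1 hMm ?_ ?_
  · refine LC_mono (fun a b _ => filter_subset (fun c => M 0 ≤ (ψ c : ℕ)) _) ?_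
    exact LC_sub (G := lev H σ 0)
      (fun a b hab => ⟨hab, fun i hi => absurd hi (Nat.not_lt_zero _)⟩) hlev
  · -- the last level
    refine GR (Fin n) (lev H σ J) (dj J) ?_ _ ?_ ?_
    · intro v
      by_cases hv : v ∈ T
      · rw [hisol (lev H σ J) (fun a b h => h.1) v hv]
        exact Nat.zero_le _
      · have h2 := hσ v (hT1n v hv) {σ v}
        have h3 : nb (lev H σ J) v ⊆ (nb G v).filter (fun w => σ w ∈ ({σ v} : Finset _)) := by
          intro w hw
          rw [mem_nb] at hw
          rw [mem_filter, mem_nb, mem_singleton]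
          refine ⟨((cutX_adj G T v w).1 hw.1).1, ?_⟩
          funext i
          exact (hw.2 i i.isLt).symm
        have h4 : (dg (lev H σ J) v : ℝ) ≤
            (((nb G v).filter (fun w => σ w ∈ ({σ v} : Finset _))).card : ℝ) := by
          exact_mod_cast card_le_card h3
        rw [card_singleton] at h2
        have h5 : (dg G v : ℝ) ≤ D' := by exact_mod_cast hT0n v hv
        have h6 : (dg G v : ℝ) * (((1 : ℕ) : ℝ) / 2 ^ J) ≤ D' / 2 ^ J := by
          rw [Nat.cast_one, mul_one_div]
          gcongr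
        have h7 : (dg (lev H σ J) v : ℝ) ≤ dj J := by linarith
        exact_mod_cast h7
    · intro a b
      rw [hsym1 a b]
    · intro a b hab
      obtain ⟨hG', haT, hbT⟩ := (cutX_adj G T a b).1 hab.1
      have h2 := hψ a (hT2n a haT) b hG' (Fin.last J)
      have h3 : (B (Fin.last J)).card = D - M J := by
        have := card_Ico_fin D (M J) D le_rfl
        rw [← this]
        congr 1
        ext x
        simp only [B, Fin.val_last, lt_irrefl, if_false]
      have h4 : (L0 a b).filter (fun c => ψ c ∈ B (Fin.last J)) ⊆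
          (L0 a b).filter (fun c => M J ≤ (ψ c : ℕ)) := by
        intro c hc
        rw [mem_filter] at hc ⊢
        have h5 := hc.2
        simp only [B, mem_filter, Fin.val_last] at h5
        exact ⟨hc.1, h5.2.1⟩
      have h5 : (((L0 a b).filter (fun c => ψ c ∈ B (Fin.last J))).card : ℝ) ≤
          ((L0 a b).filter (fun c => M J ≤ (ψ c : ℕ))).card := by exact_mod_cast card_le_card h4
      have h6 := hfil a b hab.1 (fun c => M J ≤ (ψ c : ℕ))
      rw [h3, Nat.cast_sub hMJ] at h2
      have h8 : ((∑ j ∈ range J, mj j : ℕ) : ℝ) = (M J : ℝ) := rfl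
      rw [h8] at hsum
      have h9 : (2 * dj J : ℝ) ≤ ((L1 a b).filter (fun c => M J ≤ (ψ c : ℕ))).card := by linarith
      exact_mod_cast h9
  · -- the bipartite graphs
    intro j
    have hd3 := hdj j j.isLt
    refine galvin0 (dj j) (crs H σ j) (fun v => σ v j) (fun a b h => h.2.2) ?_ _ ?_ ?_
    · intro v
      by_cases hv : v ∈ T
      · rw [hisol (crs H σ j) (fun a b h => h.1) v hv]
        exact Nat.zero_le _
      · have h2 := hσ v (hT1n v hv) (blk (σ v) j)
        have h3 : nb (crs H σ j) v ⊆ (nb G v).filter (fun w => σ w ∈ blk (σ v) j) := by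
          intro w hw
          rw [mem_nb] at hw
          rw [mem_filter, mem_nb]
          refine ⟨((cutX_adj G T v w).1 hw.1).1, ?_⟩
          unfold blk
          rw [mem_filter]
          exact ⟨mem_univ _, fun i hi => (hw.2.1 i hi).symm, hw.2.2.symm⟩
        have h4 : (dg (crs H σ j) v : ℝ) ≤
            (((nb G v).filter (fun w => σ w ∈ blk (σ v) j)).card : ℝ) := by
          exact_mod_cast card_le_card h3
        rw [card_blk] at h2
        have h5 : (dg G v : ℝ) ≤ D' := by exact_mod_cast hT0n v hv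
        have h6 : (dg G v : ℝ) * (1 / 2 ^ ((j : ℕ) + 1)) ≤ D' / 2 ^ ((j : ℕ) + 1) := by
          rw [mul_one_div]
          gcongr
        have h7 : (dg (crs H σ j) v : ℝ) ≤ dj j := by linarith
        exact_mod_cast h7
    · intro a b
      rw [hsym1 a b]
    · intro a b hab
      obtain ⟨hG', haT, hbT⟩ := (cutX_adj G T a b).1 hab.1
      have h2 := hψ a (hT2n a haT) b hG' j.castSucc
      have hMj : M (j + 1) ≤ D := (hMmono (Nat.succ_le_of_lt j.isLt)).trans hMJ
      have h3 : (B j.castSucc).card = M (j + 1) - M j := by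
        have := card_Ico_fin D (M j) (M (j + 1)) hMj
        rw [← this]
        congr 1
        ext x
        simp only [B, Fin.val_castSucc, j.isLt, if_true]
      have h4 : (L0 a b).filter (fun c => ψ c ∈ B j.castSucc) ⊆
          (L0 a b).filter (fun c => M j ≤ (ψ c : ℕ) ∧ (ψ c : ℕ) < M (j + 1)) := by
        intro c hc
        rw [mem_filter] at hc ⊢
        have h5 := hc.2
        simp only [B, mem_filter, Fin.val_castSucc, j.isLt, if_true] at h5
        exact ⟨hc.1, h5.2⟩
      have h5 : (((L0 a b).filter (fun c => ψ c ∈ B j.castSucc)).card : ℝ) ≤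
          ((L0 a b).filter (fun c => M j ≤ (ψ c : ℕ) ∧ (ψ c : ℕ) < M (j + 1))).card := by
        exact_mod_cast card_le_card h4
      have h6 := hfil a b hab.1 (fun c => M j ≤ (ψ c : ℕ) ∧ (ψ c : ℕ) < M (j + 1))
      rw [h3, hMs, Nat.add_sub_cancel_left] at h2
      have h7 := hmj j j.isLt
      have h9 : (dj j : ℝ) ≤
          ((L1 a b).filter (fun c => M j ≤ (ψ c : ℕ) ∧ (ψ c : ℕ) < M (j + 1))).card := by linarith
      exact_mod_cast h9

end Pool.Agent.W2helper87.LD
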