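import Pool.Agent.W2helper87.LD.Det2
import Pool.Agent.W2helper87.SR.Asym2

/-!
# The asymptotic form of the deterministic theorems for small maximum degree
-/

set_option autoImplicit false

namespace Pool.Agent.W2helper87.LD

open Finset Pool.Agent.H162R2.Sparse Pool.Agent.H162R2.AG Pool.Agent.W2helper87.SR

theorem log_small (A : ℝ) (hA : 0 < A) : ∃ x₀ : ℝ, 1 ≤ x₀ ∧ ∀ x : ℝ, x₀ ≤ x →
    34 * (2 * A) * (1 + Real.log x) ≤ x := by
  have h1 : Filter.Tendsto (fun x : ℝ => (1 + Real.log x) / x) Filter.atTop (nhds 0) := by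
    have h2 : Filter.Tendsto (fun x : ℝ => Real.log x / x) Filter.atTop (nhds 0) :=
      Real.isLittleO_log_id_atTop.tendsto_div_nhds_zero
    have h3 : Filter.Tendsto (fun x : ℝ => 1 / x) Filter.atTop (nhds 0) := by
      simpa using tendsto_inv_atTop_zero (𝕜 := ℝ)
    have h4 := h3.add h2
    rw [add_zero] at h4
    refine h4.congr (fun x => ?_)
    ring
  have h5 : ∀ᶠ x : ℝ in Filter.atTop, (1 + Real.log x) / x < 1 / (34 * (2 * A)) :=
    h1.eventually_lt_const (by positivity)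
  obtain ⟨x₁, hx₁⟩ := Filter.eventually_atTop.1 h5
  refine ⟨max x₁ 1, le_max_right _ _, fun x hx => ?_⟩
  have hx1 : 0 < x := lt_of_lt_of_le zero_lt_one ((le_max_right _ _).trans hx)
  have h6 := hx₁ x ((le_max_left _ _).trans hx)
  rw [div_lt_div_iff₀ hx1 (by positivity)] at h6
  linarith

set_option maxHeartbeats 1000000 in
/-- the case of maximum degree at least a multiple of `log n` -/
theorem low_det (g b : ℝ) (hg : 0 < g) (hg1 : g ≤ 1) (hb : 0 < b) :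
    ∃ κ₂ : ℝ, 0 < κ₂ ∧ ∀ κ : ℝ, 0 < κ → κ ≤ κ₂ → κ ≤ 1 / 2 → ∀ A : ℝ, 0 < A → ∃ n₀ : ℕ,
      ∀ n : ℕ, n₀ ≤ n → ∀ (G : SimpleGraph (Fin n)) (D : ℕ), (∀ v, dg G v ≤ D) →
      b * Real.log n ≤ D →
      ((univ.filter (fun v => (1 - g) * (D : ℝ) < dg G v)).card : ℝ) ≤ (n : ℝ) ^ (1 - κ) →
      (∀ X : Finset (Fin n), (X.card : ℝ) ≤ 9 * (n : ℝ) ^ (1 - κ) → e2 G X ≤ A * X.card) →
      ∀ L : Fin n → Fin n → Finset ℕ, (∀ a b, L a b = L b a) →
      (∀ a b, G.Adj a b → D ≤ (L a b).card) → LC G L := by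
  classical
  obtain ⟨J, hJ⟩ : ∃ J : ℕ, 4 / g ≤ 2 ^ J := by
    obtain ⟨J, hJ⟩ := pow_unbounded_of_one_lt (4 / g) (by norm_num : (1 : ℝ) < 2)
    exact ⟨J, hJ.le⟩
  have hJ0 : (0 : ℝ) < 2 * J + 3 := by positivity
  set κ₁ : ℝ := g / (4 * (2 * J + 3)) with hκ₁
  have hκ₁0 : 0 < κ₁ := by positivity
  have hκ₁1 : κ₁ ≤ 1 / 2 := by
    rw [hκ₁, div_le_div_iff₀ (by positivity) (by norm_num)]
    have : (0 : ℝ) ≤ J := Nat.cast_nonneg _
    linarith
  refine ⟨κ₁ ^ 2 * b / 4, by positivity, fun κ hκ0 hκ hκ2 A hA => ?_⟩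
  obtain ⟨x₀, hx₀1, hx₀⟩ := log_small A hA
  set K : ℝ := 2 ^ (2 ^ J) + (J + 1) * (2 / κ₁ ^ 2) with hK
  have hK0 : 0 < K := by positivity
  -- large `n`
  have v1 : ∀ᶠ n : ℕ in Filter.atTop, x₀ + 4 * ((J + 1) * (2 * A + 2)) / g ≤ b * Real.log n := by
    have h1 : ∀ᶠ n : ℕ in Filter.atTop, (x₀ + 4 * ((J + 1) * (2 * A + 2)) / g) / b ≤ Real.log n :=
      (Real.tendsto_log_atTop.comp tendsto_natCast_atTop_atTop).eventually_ge_atTop _
    filter_upwards [h1] with n hn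
    rw [div_le_iff₀ hb] at hn
    linarith
  have v2 : ∀ᶠ n : ℕ in Filter.atTop, K ≤ (n : ℝ) ^ (κ₁ ^ 2 * b / 4) :=
    ((tendsto_rpow_atTop (by positivity)).comp
      tendsto_natCast_atTop_atTop).eventually_ge_atTop _
  obtain ⟨N, hN⟩ := Filter.eventually_atTop.1 (v1.and (v2.and (Filter.eventually_ge_atTop 1)))
  refine ⟨N, fun n hn G D hdeg hD hT hsp L hsym hL => ?_⟩
  obtain ⟨w1, w2, hn1⟩ := hN n hn
  have hnr : (1 : ℝ) ≤ n := by exact_mod_cast hn1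
  have hn0 : (0 : ℝ) < n := by linarith
  have hpos : 0 ≤ 4 * ((J + 1) * (2 * A + 2)) / g := by positivity
  have hDx : x₀ ≤ D := by linarith
  have hD1 : (1 : ℝ) ≤ D := by linarith
  have hD0 : (0 : ℝ) < D := by linarith
  have hDn : 0 < D := by exact_mod_cast hD0
  set D' : ℕ := ⌊(1 - g) * (D : ℝ)⌋₊ with hD'
  have hD'le : (D' : ℝ) ≤ (1 - g) * D := Nat.floor_le (by
    apply mul_nonneg
    · linarith
    · exact hD0.le)
  set η : ℝ := κ₁ * D with hη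
  have hη0 : 0 ≤ η := by positivity
  let dj : ℕ → ℕ := fun j => if j < J then ⌈(D' : ℝ) / 2 ^ (j + 1) + η⌉₊
    else ⌈(D' : ℝ) / 2 ^ J + η⌉₊
  let mj : ℕ → ℕ := fun j => ⌈(dj j : ℝ) + 2 * A + η⌉₊
  set m : ℕ := ⌈2 * (n : ℝ) ^ (1 - κ)⌉₊ with hm
  have hm1 : (1 : ℝ) ≤ (n : ℝ) ^ (1 - κ) := Real.one_le_rpow hnr (by linarith)
  have hmle : (m : ℝ) ≤ 3 * (n : ℝ) ^ (1 - κ) := by
    have := Nat.ceil_lt_add_one (a := 2 * (n : ℝ) ^ (1 - κ)) (by positivity)
    rw [← hm] at this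
    linarith
  have hmge : 2 * (n : ℝ) ^ (1 - κ) ≤ m := Nat.le_ceil _
  have hm1' : 1 ≤ m := by
    have : (1 : ℝ) ≤ m := by linarith
    exact_mod_cast this
  have hDD : η ^ 2 / D = κ₁ ^ 2 * D := by
    rw [hη]
    field_simp
  have hexc : (n : ℝ) * 2 ^ (2 ^ J) * Real.exp (-(η ^ 2) / D) +
      n * D * (J + 1) * Real.exp (-(η ^ 2) / D) ≤ (n : ℝ) ^ (1 - κ) := by
    have e0 : -(η ^ 2) / (D : ℝ) = -(κ₁ ^ 2 * D / 2) + -(κ₁ ^ 2 * D / 2) := by
      rw [neg_div, hDD]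
      ring
    have e1 : Real.exp (-(κ₁ ^ 2 * D / 2)) ≤ (n : ℝ) ^ (-(κ₁ ^ 2 * b / 2)) := by
      rw [← exp_log_rpow n (by omega)]
      apply Real.exp_le_exp.2
      have : κ₁ ^ 2 * (b * Real.log n) ≤ κ₁ ^ 2 * D := by gcongr
      linarith
    have e2' : Real.exp (-(κ₁ ^ 2 * D / 2)) ≤ 1 := by
      rw [Real.exp_le_one_iff]
      have : 0 ≤ κ₁ ^ 2 * (D : ℝ) / 2 := by positivity
      linarith
    have e3 : (D : ℝ) * Real.exp (-(κ₁ ^ 2 * D / 2)) ≤ 2 / κ₁ ^ 2 := by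
      have h3 := Real.add_one_le_exp (κ₁ ^ 2 * D / 2)
      rw [Real.exp_neg, ← div_eq_mul_inv, div_le_div_iff₀ (Real.exp_pos _) (by positivity)]
      linarith
    rw [e0, Real.exp_add]
    set E := Real.exp (-(κ₁ ^ 2 * D / 2)) with hE
    have hE0 : 0 < E := Real.exp_pos _
    calc (n : ℝ) * 2 ^ (2 ^ J) * (E * E) + n * D * (J + 1) * (E * E) =
        n * E * (2 ^ (2 ^ J) * E + (J + 1) * (D * E)) := by ring
      _ ≤ n * E * (2 ^ (2 ^ J) * 1 + (J + 1) * (2 / κ₁ ^ 2)) := by gcongr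
      _ = n * E * K := by rw [hK, mul_one]
      _ ≤ n * (n : ℝ) ^ (-(κ₁ ^ 2 * b / 2)) * (n : ℝ) ^ (κ₁ ^ 2 * b / 4) := by gcongr
      _ = (n : ℝ) ^ (1 - κ₁ ^ 2 * b / 4) := by
          nth_rewrite 1 [← Real.rpow_one (n : ℝ)]
          rw [← Real.rpow_add hn0, ← Real.rpow_add hn0]
          congr 1
          ring
      _ ≤ (n : ℝ) ^ (1 - κ) := by
          apply Real.rpow_le_rpow_of_exponent_le hnr
          linarith
  refine det2 n G D D' J m A η mj dj hDn hdeg hA hη0 ?_ hm1' ?_ ?_ (hx₀ D hDx) ?_ ?_ ?_ ?_ L hsym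
    hL
  · rw [hη]
    calc κ₁ * (D : ℝ) ≤ 1 / 2 * D := by gcongr
      _ = D / 2 := by ring
  · have e1 : (univ.filter (fun v => D' < dg G v)).card ≤
        (univ.filter (fun v => (1 - g) * (D : ℝ) < dg G v)).card := by
      apply card_le_card
      intro v hv
      rw [mem_filter] at hv ⊢
      refine ⟨hv.1, ?_⟩
      rw [hD'] at hv
      exact (Nat.floor_lt (by
        apply mul_nonneg
        · linarith
        · exact hD0.le)).1 hv.2
    have e2' : ((univ.filter (fun v => D' < dg G v)).card : ℝ) ≤ (n : ℝ) ^ (1 - κ) :=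
      le_trans (by exact_mod_cast e1) hT
    linarith
  · intro X hX
    apply hsp
    have : (X.card : ℝ) ≤ 3 * m := by exact_mod_cast hX
    linarith
  · intro j hj
    simp only [dj, if_pos hj]
    exact Nat.le_ceil _
  · simp only [dj, lt_irrefl, if_false]
    exact Nat.le_ceil _
  · intro j hj
    simp only [mj]
    exact Nat.le_ceil _
  · have e1 : ((∑ j ∈ range J, mj j : ℕ) : ℝ) ≤
        ∑ j ∈ range J, ((D' : ℝ) / 2 ^ (j + 1) + (2 * η + 2 * A + 2)) := by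
      push_cast
      apply sum_le_sum
      intro j hj
      rw [mem_range] at hj
      have h3 : (mj j : ℝ) < (dj j : ℝ) + 2 * A + η + 1 := Nat.ceil_lt_add_one (by positivity)
      have h4 : (dj j : ℝ) < (D' : ℝ) / 2 ^ (j + 1) + η + 1 := by
        simp only [dj, if_pos hj]
        exact Nat.ceil_lt_add_one (by positivity)
      linarith
    rw [sum_add_distrib, sum_half, sum_const, card_range, nsmul_eq_mul] at e1
    have e2' : (dj J : ℝ) < (D' : ℝ) / 2 ^ J + η + 1 := by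
      simp only [dj, lt_irrefl, if_false]
      exact Nat.ceil_lt_add_one (by positivity)
    have e3 : (D' : ℝ) / 2 ^ J ≤ g * D / 4 := by
      rw [div_le_iff₀ (by positivity)]
      have h3 : (D' : ℝ) ≤ D := by nlinarith
      calc (D' : ℝ) ≤ D := h3
        _ = g * D / 4 * (4 / g) := by field_simp
        _ ≤ g * D / 4 * 2 ^ J := by gcongr
    have e4 : (2 * J + 3) * η = g * D / 4 := by
      rw [hη, hκ₁]
      field_simp
    have e5 : (J + 1) * (2 * A + 2) ≤ g * D / 4 := by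
      have h3 : 4 * ((J + 1) * (2 * A + 2)) / g ≤ D := by linarith
      rw [div_le_iff₀ hg] at h3
      linarith
    have e6 : (J : ℝ) * (2 * η + 2 * A + 2) + 2 * η + 2 + η + 2 * A =
        (2 * J + 3) * η + (J + 1) * (2 * A + 2) := by ring
    have e7 : 0 ≤ g * D := by positivity
    linarith

end Pool.Agent.W2helper87.LD
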