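import Pool.Agent.W2helper87.LD.Rat

/-!
# Random graphs with small edge probabilities: the number of vertices of large degree
-/

set_option autoImplicit false

namespace Pool.Agent.W2helper87.LD

open Finset Pool.Agent.H162R2.Sparse Pool.Agent.H162R2.AG Pool.Agent.W2helper87.SR
open Pool.Agent.W2helper87.FR

theorem FF_est {n : ℕ} (q : Sym2 (Fin n) → ℝ) (hq : ∀ e, 0 ≤ q e ∧ q e ≤ 1) (qm : ℝ)
    (hqm : ∀ e, q e ≤ qm) (hqm0 : 0 ≤ qm) (l κ σ : ℝ) (hl : 0 ≤ l) (hκ : 0 ≤ κ) (k₁ s : ℕ)
    (hk₁ : 1 ≤ k₁) (hk : k₁ + s ≤ 4 * k₁)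
    (h1 : 6 * qm * (k₁ + s : ℕ) * Real.exp (3 * κ * l) ≤ 1)
    (hs : (s : ℝ) * (4 + 3 * κ * l / k₁) ≤ σ * l) :
    FF q k₁ ≤ n * Real.exp (-(3 * κ * l)) + Real.exp (σ * l) * FF q (k₁ + s) := by
  have hk1 : (1 : ℝ) ≤ k₁ := by exact_mod_cast hk₁
  have hk0 : (0 : ℝ) < k₁ := by linarith
  set lam : ℝ := 1 + 3 * κ * l / k₁ with hlam
  have hlam0 : 0 ≤ lam := by positivity
  have hlamk : lam * k₁ = k₁ + 3 * κ * l := by
    rw [hlam]
    field_simp
  have hE0 : 0 < Real.exp lam := Real.exp_pos _
  have key : ∀ v : Fin n, TS q (sU v univ) k₁ ≤ Real.exp (-(3 * κ * l)) +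
      Real.exp (σ * l) * TS q (sU v univ) (k₁ + s) := by
    intro v
    have hT0 := TS_nonneg q hq (sU v univ) (k₁ + s)
    set μ := qs q (sU v univ) with hμ
    by_cases hv : μ * Real.exp lam ≤ k₁
    · have h2 := TS_chern q hq (sU v univ) k₁ lam hlam0
      have h3 : Real.exp (μ * Real.exp lam - lam * k₁) ≤ Real.exp (-(3 * κ * l)) := by
        apply Real.exp_le_exp.2
        rw [hlamk]
        linarith
      have h4 : 0 ≤ Real.exp (σ * l) * TS q (sU v univ) (k₁ + s) := by positivity
      linarith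
    · push Not at hv
      have hμ0 : 0 < μ := by
        by_contra hcon
        push Not at hcon
        have : μ * Real.exp lam ≤ 0 := mul_nonpos_of_nonpos_of_nonneg hcon hE0.le
        linarith
      have hμlo : 8 * (k₁ : ℝ) / μ ≤ 8 * Real.exp lam := by
        rw [div_le_iff₀ hμ0]
        nlinarith
      have hEle : Real.exp lam ≤ 3 * Real.exp (3 * κ * l) := by
        rw [hlam, Real.exp_add]
        have e1 : Real.exp 1 ≤ 3 := by
          have := Real.exp_one_lt_d9
          linarith
        have e2 : Real.exp (3 * κ * l / k₁) ≤ Real.exp (3 * κ * l) := by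
          apply Real.exp_le_exp.2
          apply div_le_self (by positivity) hk1
        gcongr
      have hsmall : qm * (k₁ + s : ℕ) ≤ μ / 2 := by
        have e1 : 2 * (qm * (k₁ + s : ℕ)) * Real.exp lam ≤ μ * Real.exp lam := by
          calc 2 * (qm * (k₁ + s : ℕ)) * Real.exp lam ≤
              2 * (qm * (k₁ + s : ℕ)) * (3 * Real.exp (3 * κ * l)) := by gcongr
            _ = 6 * qm * (k₁ + s : ℕ) * Real.exp (3 * κ * l) := by ring
            _ ≤ 1 := h1
            _ ≤ k₁ := hk1
            _ ≤ μ * Real.exp lam := hv.le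
        have e2 := le_of_mul_le_mul_right e1 hE0
        linarith
      have hstep : ∀ j, k₁ ≤ j → j < k₁ + s →
          PS q (sU v univ) j ≤ (8 * Real.exp lam) * PS q (sU v univ) (j + 1) := by
        intro j hj1 hj2
        have h2 := ratio_gen q hq qm hqm (sU v univ) j
        have hP0 := PS_nonneg q hq (sU v univ) j
        have hP1 := PS_nonneg q hq (sU v univ) (j + 1)
        have hj : (j : ℝ) ≤ (k₁ + s : ℕ) := by exact_mod_cast hj2.le
        have hj' : (j : ℝ) + 1 ≤ 4 * k₁ := by
          have : j + 1 ≤ 4 * k₁ := by omega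
          exact_mod_cast this
        have h3 : μ / 2 * PS q (sU v univ) j ≤ (4 * k₁) * PS q (sU v univ) (j + 1) := by
          calc μ / 2 * PS q (sU v univ) j ≤ (μ - qm * j) * PS q (sU v univ) j := by
                apply mul_le_mul_of_nonneg_right _ hP0
                have : qm * (j : ℝ) ≤ qm * (k₁ + s : ℕ) := by gcongr
                linarith
            _ ≤ ((j : ℝ) + 1) * PS q (sU v univ) (j + 1) := h2
            _ ≤ (4 * k₁) * PS q (sU v univ) (j + 1) := by gcongr
        calc PS q (sU v univ) j = 2 / μ * (μ / 2 * PS q (sU v univ) j) := by field_simp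
          _ ≤ 2 / μ * ((4 * k₁) * PS q (sU v univ) (j + 1)) := by gcongr
          _ = 8 * (k₁ : ℝ) / μ * PS q (sU v univ) (j + 1) := by ring
          _ ≤ _ := by gcongr
      have h2 := TS_gen q (sU v univ) (8 * Real.exp lam) hq (by positivity) k₁ s hstep
      have h3 : (1 + 8 * Real.exp lam) ^ s ≤ Real.exp (σ * l) := by
        have e1 : 1 ≤ Real.exp lam := Real.one_le_exp hlam0
        have e2 : (9 : ℝ) ≤ Real.exp 3 := by
          have := Real.add_one_le_exp (1 : ℝ)
          have h4 : Real.exp 3 = Real.exp 1 ^ 3 := by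
            rw [← Real.exp_nat_mul]
            norm_num
          rw [h4]
          have h5 := Real.exp_one_gt_d9
          have h6 : (2.7 : ℝ) ≤ Real.exp 1 := by linarith
          calc (9 : ℝ) ≤ 2.7 ^ 3 := by norm_num
            _ ≤ Real.exp 1 ^ 3 := by gcongr
        calc (1 + 8 * Real.exp lam) ^ s ≤ (Real.exp 3 * Real.exp lam) ^ s := by
              apply pow_le_pow_left₀ (by positivity)
              nlinarith
          _ = Real.exp (s * (3 + lam)) := by rw [← Real.exp_add, ← Real.exp_nat_mul]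
          _ ≤ Real.exp (σ * l) := by
              apply Real.exp_le_exp.2
              refine le_trans (le_of_eq ?_) hs
              rw [hlam]
              ring
      have h4 : (1 + 8 * Real.exp lam) ^ s * TS q (sU v univ) (k₁ + s) ≤
          Real.exp (σ * l) * TS q (sU v univ) (k₁ + s) := by gcongr
      have := Real.exp_pos (-(3 * κ * l))
      linarith
  have h2 := sum_le_sum (s := (univ : Finset (Fin n))) fun v _ => key v
  rw [sum_add_distrib, ← mul_sum, sum_const, card_univ, Fintype.card_fin, nsmul_eq_mul] at h2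
  exact h2

end Pool.Agent.W2helper87.LD
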