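import Pool.Agent.W2helper87.FR.Mx

/-!
# Random graphs with small edge probabilities: ratios of probabilities, second moments
-/

set_option autoImplicit false

namespace Pool.Agent.W2helper87.LD

open Finset Pool.Agent.H162R2.Sparse Pool.Agent.H162R2.AG Pool.Agent.W2helper87.SR
open Pool.Agent.W2helper87.FR

section

variable {n : ℕ} (q : Sym2 (Fin n) → ℝ)

open Classical in
theorem cS_erase (S : Finset (Pr n)) (e : Pr n) (he : e ∈ S) (G : SimpleGraph (Fin n)) :
    cS S G = cS (S.erase e) G + (if e.1 ∈ G.edgeSet then 1 else 0) := by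
  unfold cS
  have h1 : S = insert e (S.erase e) := (insert_erase he).symm
  conv_lhs => rw [h1]
  rw [filter_insert]
  split_ifs with h
  · rw [card_insert_of_notMem]
    intro h2
    exact notMem_erase e S (mem_filter.1 h2).1
  · rfl

open Classical in
theorem ex_edge (e : Pr n) : ex q (fun G => if e.1 ∈ G.edgeSet then (1 : ℝ) else 0) = q e.1 := by
  have h1 := mgf_cS q {e} (Real.log 2)
  rw [prod_singleton, Real.exp_log (by norm_num)] at h1
  have h2 : (fun G : SimpleGraph (Fin n) => Real.exp (Real.log 2 * (cS {e} G : ℝ))) =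
      (fun G => (if e.1 ∈ G.edgeSet then (1 : ℝ) else 0) + 1) := by
    funext G
    unfold cS
    rw [filter_singleton]
    split_ifs with h
    · rw [card_singleton, Nat.cast_one, mul_one, Real.exp_log (by norm_num)]
      norm_num
    · rw [card_empty, Nat.cast_zero, mul_zero, Real.exp_zero]
      norm_num
  rw [h2, ex_add, ex_one] at h1
  linarith

open Classical in
theorem pb_edge (e : Pr n) : pb q (fun G => e.1 ∈ G.edgeSet) = q e.1 := by
  rw [pb_ex, ex_edge]

open Classical in
theorem ratio_gen (hq : ∀ e, 0 ≤ q e ∧ q e ≤ 1) (qm : ℝ) (hqm : ∀ e, q e ≤ qm)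
    (S : Finset (Pr n)) (j : ℕ) :
    (qs q S - qm * j) * PS q S j ≤ ((j : ℝ) + 1) * PS q S (j + 1) := by
  -- the mean of the number of edges
  have hA : ∀ k : ℕ, ∑ e ∈ S, ex q (fun G => (if e.1 ∈ G.edgeSet then (1 : ℝ) else 0) *
      (if cS S G = k then (1 : ℝ) else 0)) = k * PS q S k := by
    intro k
    rw [← ex_sum]
    unfold PS
    rw [pb_ex, ← ex_mul]
    congr 1
    funext G
    rw [← sum_mul, sum_boole]
    by_cases h : cS S G = k
    · rw [if_pos h, mul_one, mul_one, ← h]
      rfl
    · rw [if_neg h, mul_zero, mul_zero]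
  have hB : ∀ e ∈ S, q e.1 * (PS q S j - ex q (fun G => (if e.1 ∈ G.edgeSet then (1 : ℝ) else 0) *
      (if cS S G = j then (1 : ℝ) else 0))) ≤
      ex q (fun G => (if e.1 ∈ G.edgeSet then (1 : ℝ) else 0) *
      (if cS S G = j + 1 then (1 : ℝ) else 0)) := by
    intro e he
    have b1 : (fun G : SimpleGraph (Fin n) => (if e.1 ∈ G.edgeSet then (1 : ℝ) else 0) *
        (if cS S G = j + 1 then (1 : ℝ) else 0)) =
        (fun G => (if e.1 ∈ G.edgeSet then (1 : ℝ) else 0) *
        (if cS (S.erase e) G = j then (1 : ℝ) else 0)) := by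
      funext G
      rw [cS_erase S e he G]
      by_cases h : e.1 ∈ G.edgeSet
      · simp only [if_pos h, add_left_inj]
      · simp only [if_neg h, zero_mul]
    rw [b1, ex_indep q {e} (fun G => if e.1 ∈ G.edgeSet then (1 : ℝ) else 0)
      (fun G => if cS (S.erase e) G = j then (1 : ℝ) else 0), ex_edge]
    · apply mul_le_mul_of_nonneg_left _ (hq e.1).1
      unfold PS
      rw [pb_ex]
      have b2 : ex q (fun G => if cS S G = j then (1 : ℝ) else 0) ≤
          ex q (fun G => (if e.1 ∈ G.edgeSet then (1 : ℝ) else 0) *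
          (if cS S G = j then (1 : ℝ) else 0) + (if cS (S.erase e) G = j then (1 : ℝ) else 0)) := by
        apply ex_mono q hq
        intro G
        rw [cS_erase S e he G]
        by_cases h : e.1 ∈ G.edgeSet
        · simp only [if_pos h, one_mul]
          split_ifs <;> norm_num
        · simp only [if_neg h, zero_mul, add_zero, zero_add]
          exact le_rfl
      rw [ex_add] at b2
      linarith
    · intro G G' h
      have := h e (mem_singleton_self e)
      simp only [this]
    · intro G G' h
      have : cS (S.erase e) G = cS (S.erase e) G' := by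
        apply cS_congr
        intro f hf
        apply h f
        rw [mem_singleton]
        exact ne_of_mem_erase hf
      simp only [this]
  have h1 := sum_le_sum hB
  rw [hA (j + 1)] at h1
  have h2 : (qs q S - qm * j) * PS q S j ≤ ∑ e ∈ S, q e.1 * (PS q S j -
      ex q (fun G => (if e.1 ∈ G.edgeSet then (1 : ℝ) else 0) *
      (if cS S G = j then (1 : ℝ) else 0))) := by
    have h3 : ∀ e ∈ S, q e.1 * PS q S j - qm * ex q (fun G =>
        (if e.1 ∈ G.edgeSet then (1 : ℝ) else 0) * (if cS S G = j then (1 : ℝ) else 0)) ≤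
        q e.1 * (PS q S j - ex q (fun G => (if e.1 ∈ G.edgeSet then (1 : ℝ) else 0) *
        (if cS S G = j then (1 : ℝ) else 0))) := by
      intro e _
      have h4 : 0 ≤ ex q (fun G => (if e.1 ∈ G.edgeSet then (1 : ℝ) else 0) *
          (if cS S G = j then (1 : ℝ) else 0)) := by
        unfold ex
        apply sum_nonneg
        intro G _
        apply mul_nonneg _ (wt_nonneg q hq G)
        simp only
        split_ifs <;> norm_num
      have h5 := mul_le_mul_of_nonneg_right (hqm e.1) h4
      linarith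
    refine le_trans (le_of_eq ?_) (sum_le_sum h3)
    rw [sum_sub_distrib, ← sum_mul, ← mul_sum, hA j]
    unfold qs
    ring
  push_cast at h1
  linarith

theorem TS_gen (S : Finset (Pr n)) (ρ : ℝ) (hq : ∀ e, 0 ≤ q e ∧ q e ≤ 1) (hρ : 0 ≤ ρ) (k s : ℕ)
    (h : ∀ j, k ≤ j → j < k + s → PS q S j ≤ ρ * PS q S (j + 1)) :
    TS q S k ≤ (1 + ρ) ^ s * TS q S (k + s) := by
  induction s with
  | zero => simp
  | succ s ih =>
    have h1 := ih (fun j hj hj2 => h j hj (by omega))
    have h2 := h (k + s) (by omega) (by omega)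
    have h3 : PS q S (k + s + 1) ≤ TS q S (k + s + 1) := by
      have := TS_succ S q (k + s + 1)
      have := TS_nonneg q hq S (k + s + 1 + 1)
      linarith
    have h4 : TS q S (k + s) ≤ (1 + ρ) * TS q S (k + s + 1) := by
      rw [TS_succ S q (k + s)]
      have := mul_le_mul_of_nonneg_left h3 hρ
      linarith
    calc TS q S k ≤ (1 + ρ) ^ s * TS q S (k + s) := h1
      _ ≤ (1 + ρ) ^ s * ((1 + ρ) * TS q S (k + s + 1)) := by gcongr
      _ = (1 + ρ) ^ (s + 1) * TS q S (k + (s + 1)) := by
          rw [pow_succ, ← add_assoc]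
          ring

theorem TS_chern (hq : ∀ e, 0 ≤ q e ∧ q e ≤ 1) (S : Finset (Pr n)) (k : ℕ) (lam : ℝ)
    (hlam : 0 ≤ lam) : TS q S k ≤ Real.exp (qs q S * Real.exp lam - lam * k) := by
  have h1 : TS q S k ≤ pb q (fun G => Real.exp (lam * k) ≤ Real.exp (lam * cS S G)) := by
    apply pb_mono q hq
    intro G hG
    apply Real.exp_le_exp.2
    have : (k : ℝ) ≤ cS S G := by exact_mod_cast hG
    gcongr
  have h2 := markov q hq (fun G => Real.exp (lam * cS S G)) (fun G => (Real.exp_pos _).le)
    (Real.exp (lam * k)) (Real.exp_pos _)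
  have h3 := mgf_cS_le q hq S lam
  have h4 := qs_nonneg q hq S
  calc TS q S k ≤ ex q (fun G => Real.exp (lam * cS S G)) / Real.exp (lam * k) := h1.trans h2
    _ ≤ Real.exp (qs q S * (Real.exp lam - 1)) / Real.exp (lam * k) := by gcongr
    _ = Real.exp (qs q S * (Real.exp lam - 1) - lam * k) := by rw [Real.exp_sub]
    _ ≤ _ := by
        apply Real.exp_le_exp.2
        nlinarith

/-- two degrees are almost independent -/
theorem pair_le (hq : ∀ e, 0 ≤ q e ∧ q e ≤ 1) (k : ℕ) (v w : Fin n) (hvw : v ≠ w) :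
    pb q (fun G => k ≤ dg G v ∧ k ≤ dg G w) ≤
      TS q (sU v univ) k * TS q (sU w univ) k + q s(v, w) := by
  classical
  let e : Pr n := ⟨s(v, w), by simpa using hvw⟩
  have hev : e ∈ sU v univ := by
    rw [mem_sU]
    exact ⟨w, mem_univ _, rfl⟩
  have hew : e ∈ sU w univ := by
    rw [mem_sU]
    exact ⟨v, mem_univ _, Sym2.eq_swap⟩
  have h1 : pb q (fun G => k ≤ dg G v ∧ k ≤ dg G w) ≤ pb q (fun G => e.1 ∈ G.edgeSet ∨
      (k ≤ cS ((sU v univ).erase e) G ∧ k ≤ cS ((sU w univ).erase e) G)) := by
    apply pb_mono q hq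
    rintro G ⟨ha, hb⟩
    by_cases he : e.1 ∈ G.edgeSet
    · exact Or.inl he
    · right
      rw [← cS_univ, cS_erase _ e hev G, if_neg he, add_zero] at ha
      rw [← cS_univ, cS_erase _ e hew G, if_neg he, add_zero] at hb
      exact ⟨ha, hb⟩
  have h2 : pb q (fun G => k ≤ cS ((sU v univ).erase e) G ∧ k ≤ cS ((sU w univ).erase e) G) =
      TS q ((sU v univ).erase e) k * TS q ((sU w univ).erase e) k := by
    unfold TS
    simp_rw [pb_ex]
    rw [← ex_indep q ((sU v univ).erase e)
      (fun G => if k ≤ cS ((sU v univ).erase e) G then (1 : ℝ) else 0)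
      (fun G => if k ≤ cS ((sU w univ).erase e) G then (1 : ℝ) else 0)]
    · congr 1
      funext G
      by_cases ha : k ≤ cS ((sU v univ).erase e) G <;>
        by_cases hb : k ≤ cS ((sU w univ).erase e) G <;> simp [ha, hb]
    · intro G G' h
      rw [cS_congr _ G G' h]
    · intro G G' h
      have : cS ((sU w univ).erase e) G = cS ((sU w univ).erase e) G' := by
        apply cS_congr
        intro f hf
        apply h f
        intro hf2
        rw [mem_erase, mem_sU] at hf hf2
        obtain ⟨hfe, a, _, ha⟩ := hf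
        obtain ⟨_, b, _, hb⟩ := hf2
        apply hfe
        apply Subtype.ext
        change f.1 = s(v, w)
        rw [ha] at hb
        rcases Sym2.eq_iff.1 hb with h3 | h3
        · exact absurd h3.1.symm hvw
        · rw [ha, h3.2, Sym2.eq_swap]
      rw [this]
  have h3 : ∀ u : Fin n, TS q ((sU u univ).erase e) k ≤ TS q (sU u univ) k := by
    intro u
    apply pb_mono q hq
    intro G hG
    refine hG.trans ?_
    unfold cS
    exact card_le_card (filter_subset_filter _ (erase_subset _ _))
  have h4 := pb_or_le q hq (fun G => e.1 ∈ G.edgeSet)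
    (fun G => k ≤ cS ((sU v univ).erase e) G ∧ k ≤ cS ((sU w univ).erase e) G)
  rw [h2, pb_edge] at h4
  have h5 : TS q ((sU v univ).erase e) k * TS q ((sU w univ).erase e) k ≤
      TS q (sU v univ) k * TS q (sU w univ) k :=
    mul_le_mul (h3 v) (h3 w) (TS_nonneg q hq _ _) (TS_nonneg q hq _ _)
  have h6 : q e.1 = q s(v, w) := rfl
  linarith

open Classical in
/-- the second moment method -/
theorem second (hq : ∀ e, 0 ≤ q e ∧ q e ≤ 1) (qm : ℝ) (hqm : ∀ e, q e ≤ qm) (hqm0 : 0 ≤ qm)
    (k : ℕ) (hF : 0 < FF q k) :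
    pb q (fun G => ∀ v, dg G v < k) ≤ (FF q k + n ^ 2 * qm) / FF q k ^ 2 := by
  set F := FF q k with hFd
  let N : SimpleGraph (Fin n) → ℝ := fun G => ∑ v : Fin n, (if k ≤ dg G v then (1 : ℝ) else 0)
  have hT : ∀ v : Fin n, ex q (fun G => if k ≤ dg G v then (1 : ℝ) else 0) =
      TS q (sU v univ) k := by
    intro v
    unfold TS
    rw [pb_ex]
    simp only [cS_univ]
  have hN1 : ex q N = F := by
    simp only [N]
    rw [ex_sum]
    simp_rw [hT]
    rfl
  have hN2 : ex q (fun G => N G ^ 2) ≤ F + F ^ 2 + n ^ 2 * qm := by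
    have h1 : (fun G : SimpleGraph (Fin n) => N G ^ 2) = (fun G => ∑ v : Fin n, ∑ w : Fin n,
        (if k ≤ dg G v ∧ k ≤ dg G w then (1 : ℝ) else 0)) := by
      funext G
      simp only [N]
      rw [sq, sum_mul_sum]
      apply sum_congr rfl
      intro v _
      apply sum_congr rfl
      intro w _
      by_cases h1 : k ≤ dg G v <;> by_cases h2 : k ≤ dg G w <;> simp [h1, h2]
    rw [h1, ex_sum]
    have h2 : ∀ v : Fin n, ex q (fun G => ∑ w : Fin n,
        (if k ≤ dg G v ∧ k ≤ dg G w then (1 : ℝ) else 0)) ≤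
        TS q (sU v univ) k + ∑ w : Fin n, (TS q (sU v univ) k * TS q (sU w univ) k + qm) := by
      intro v
      rw [ex_sum]
      have h3 : ∀ w : Fin n, ex q (fun G => (if k ≤ dg G v ∧ k ≤ dg G w then (1 : ℝ) else 0)) ≤
          (if w = v then TS q (sU v univ) k else 0) +
            (TS q (sU v univ) k * TS q (sU w univ) k + qm) := by
        intro w
        rw [← pb_ex]
        have h4 := TS_nonneg q hq (sU v univ) k
        have h5 := TS_nonneg q hq (sU w univ) k
        by_cases hwv : w = v
        · subst hwv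
          rw [if_pos rfl]
          have h6 : pb q (fun G => k ≤ dg G w ∧ k ≤ dg G w) ≤ TS q (sU w univ) k := by
            apply pb_mono q hq
            intro G hG
            rw [cS_univ]
            exact hG.1
          have := mul_nonneg h4 h5
          linarith
        · rw [if_neg hwv, zero_add]
          have h6 := pair_le q hq k v w (fun h => hwv h.symm)
          have := hqm s(v, w)
          linarith
      refine (sum_le_sum fun w _ => h3 w).trans (le_of_eq ?_)
      rw [sum_add_distrib, sum_ite_eq' univ v, if_pos (mem_univ _)]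
    refine (sum_le_sum fun v _ => h2 v).trans (le_of_eq ?_)
    rw [sum_add_distrib]
    have h3 : ∑ v : Fin n, ∑ w : Fin n, (TS q (sU v univ) k * TS q (sU w univ) k + qm) =
        F ^ 2 + n ^ 2 * qm := by
      simp_rw [sum_add_distrib, sum_const, card_univ, Fintype.card_fin, nsmul_eq_mul]
      rw [← sum_mul_sum, sq]
      have : ∑ v : Fin n, TS q (sU v univ) k = F := rfl
      rw [this]
      ring
    rw [h3]
    have : ∑ v : Fin n, TS q (sU v univ) k = F := rfl
    rw [this]
    ring
  have hvar : ex q (fun G => (N G - F) ^ 2) ≤ F + n ^ 2 * qm := by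
    have h1 : (fun G : SimpleGraph (Fin n) => (N G - F) ^ 2) =
        (fun G => (N G ^ 2 + (-(2 * F)) * N G) + F ^ 2 * 1) := by
      funext G
      ring
    rw [h1, ex_add, ex_add, ex_mul, ex_mul, ex_one, hN1]
    linarith
  have h1 := markov q hq (fun G => (N G - F) ^ 2) (fun G => sq_nonneg _) (F ^ 2) (by positivity)
  have h2 : pb q (fun G => ∀ v, dg G v < k) ≤ pb q (fun G => F ^ 2 ≤ (N G - F) ^ 2) := by
    apply pb_mono q hq
    intro G hG
    have h3 : N G = 0 := by
      simp only [N]
      apply sum_eq_zero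
      intro v _
      rw [if_neg (not_le.2 (hG v))]
    rw [h3]
    apply le_of_eq
    ring
  refine (h2.trans h1).trans ?_
  gcongr

end

end Pool.Agent.W2helper87.LD
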